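import Mathlib

/-!
# MP_54aac5_co: a cubic graph with fault cost 1

`F` is a graph on 16 vertices whose vertices all have degree 3 except `0` and `1`, which have
degree 2.  It has no hamiltonian path from `0` to `1`, it has hamiltonian paths from `2` to `0` and
from `2` to `1`, and for every vertex `v` other than `2` the graph `F - v` has a hamiltonian path
from `2` to `0` or to `1`.  Two copies of `F`, with the two copies of `0` joined by an edge and the
two copies of `1` joined by an edge, form a 2-connected cubic graph on 32 vertices whose fault cost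
is 1.
-/

namespace Pool.Agent.Results.MP_54aac5_co.CubicFaultCost

open SimpleGraph

section Defs

variable {V : Type*}

/-- The degree of `w` in the graph `H`. -/
noncomputable def deg (H : SimpleGraph V) (w : V) : ℕ := (H.neighborSet w).ncard

/-- The number of leaves (vertices of degree one). -/
noncomputable def leaves (T : SimpleGraph V) : ℕ := {w | deg T w = 1}.ncard

/-- `S` is the graph formed by the edges of a hamiltonian cycle of `G`. -/
def IsHamCycleGraph [DecidableEq V] (G S : SimpleGraph V) : Prop :=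
  ∃ (a : V) (p : G.Walk a a), p.IsHamiltonianCycle ∧ S = p.toSubgraph.spanningCoe

/-- `G` has a hamiltonian cycle. -/
def Hamiltonian [DecidableEq V] (G : SimpleGraph V) : Prop := ∃ S, IsHamCycleGraph G S

/-- `T` is a spanning tree of `G`. -/
def IsSpanningTree (G T : SimpleGraph V) : Prop := T ≤ G ∧ T.IsTree

open Classical in
/-- The minimum leaf number: `1` for hamiltonian graphs, and otherwise the least number of leaves
of a spanning tree. -/
noncomputable def ml [DecidableEq V] (G : SimpleGraph V) : ℕ :=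
  if Hamiltonian G then 1 else sInf {k | ∃ T, IsSpanningTree G T ∧ leaves T = k}

/-- `S` is an ml-subgraph of `G`: a hamiltonian cycle if `G` is hamiltonian, and otherwise a
spanning tree with exactly `ml G` leaves. -/
def IsMLSubgraph [DecidableEq V] (G S : SimpleGraph V) : Prop :=
  (Hamiltonian G ∧ IsHamCycleGraph G S) ∨
    (¬ Hamiltonian G ∧ IsSpanningTree G S ∧ leaves S = ml G)

/-- The graph `G - v`. -/
def del (G : SimpleGraph V) (v : V) : SimpleGraph {w // w ≠ v} := G.comap Subtype.val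

/-- The transition cost: the number of vertices `w` other than `v` whose degrees in `S` and in
`Sv` are different. -/
noncomputable def transitionCost (v : V) (S : SimpleGraph V) (Sv : SimpleGraph {w // w ≠ v}) : ℕ :=
  {w : {w // w ≠ v} | deg S w.1 ≠ deg Sv w}.ncard

/-- The least transition cost from `S` to an ml-subgraph of `G - v`. -/
noncomputable def costAt [DecidableEq V] (G S : SimpleGraph V) (v : V) : ℕ :=
  sInf {t | ∃ Sv, IsMLSubgraph (del G v) Sv ∧ transitionCost v S Sv = t}

/-- The fault cost of `G` with respect to `S`: the maximum of `costAt G S v` over all `v`. -/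
noncomputable def costOf [DecidableEq V] [Fintype V] (G S : SimpleGraph V) : ℕ :=
  Finset.univ.sup (costAt G S)

/-- The fault cost of `G`. -/
noncomputable def faultCost [DecidableEq V] [Fintype V] (G : SimpleGraph V) : ℕ :=
  sInf {t | ∃ S, IsMLSubgraph G S ∧ costOf G S = t}

/-- `G` is 2-connected: at least three vertices, connected, and `G - v` is connected for
every `v`. -/
def IsTwoConnected [Fintype V] (G : SimpleGraph V) : Prop :=
  3 ≤ Fintype.card V ∧ G.Connected ∧ ∀ v, (del G v).Connected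

end Defs

/-! ### Trees -/

section Trees

variable {V : Type*}

lemma deg_eq_degree (H : SimpleGraph V) (w : V) [Fintype (H.neighborSet w)] :
    deg H w = H.degree w := by
  rw [deg, Set.ncard_eq_toFinset_card', ← SimpleGraph.card_neighborSet_eq_degree,
    Set.toFinset_card]

lemma two_le_leaves [Finite V] [Nontrivial V] {T : SimpleGraph V} (hT : T.IsTree) :
    2 ≤ leaves T := by
  classical
  have := Fintype.ofFinite V
  obtain ⟨u, v, huv, hu, hv⟩ := hT.exists_ne_and_degree_eq_one
  have h2 : ({u, v} : Set V).ncard = 2 := Set.ncard_pair huv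
  rw [← h2, leaves]
  apply Set.ncard_le_ncard _ (Set.toFinite _)
  intro w hw
  rcases hw with rfl | hw
  · show deg T w = 1
    rw [deg_eq_degree, hu]
  · rw [Set.mem_singleton_iff] at hw
    subst hw
    show deg T w = 1
    rw [deg_eq_degree, hv]

lemma sum_deg_tree [Fintype V] {T : SimpleGraph V} (hT : T.IsTree) :
    ∑ w, deg T w + 2 = 2 * Fintype.card V := by
  classical
  have h1 := hT.card_edgeFinset
  have h2 := T.sum_degrees_eq_twice_card_edges
  have h3 : ∑ w, deg T w = ∑ w, T.degree w := Finset.sum_congr rfl fun w _ => deg_eq_degree T w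
  rw [h3]
  omega

instance (n : ℕ) : DecidableRel (pathGraph n).Adj :=
  fun u v => decidable_of_iff' _ (pathGraph_adj (u := u) (v := v))

/-- The path through all vertices in the order given by `f`. -/
def pathTree {n : ℕ} (f : Fin n ≃ V) : SimpleGraph V := (pathGraph n).comap f.symm

lemma pathTree_isTree {n : ℕ} (f : Fin n ≃ V) (h : (pathGraph n).IsTree) :
    (pathTree f).IsTree :=
  (SimpleGraph.Iso.comap f.symm (pathGraph n)).isTree_iff.2 h

lemma pathTree_deg {n : ℕ} (f : Fin n ≃ V) (i : Fin n) :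
    deg (pathTree f) (f i) = deg (pathGraph n) i := by
  unfold deg
  have : (pathTree f).neighborSet (f i) = f '' (pathGraph n).neighborSet i := by
    ext w
    constructor
    · intro hw
      refine ⟨f.symm w, ?_, by simp⟩
      have : (pathGraph n).Adj (f.symm (f i)) (f.symm w) := hw
      simpa using this
    · rintro ⟨j, hj, rfl⟩
      show (pathGraph n).Adj (f.symm (f i)) (f.symm (f j))
      simpa using hj
  rw [this, Set.ncard_image_of_injective _ f.injective]

lemma path32_tree : (pathGraph 32).IsTree := by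
  rw [isTree_iff_connected_and_card]
  refine ⟨pathGraph_connected 31, ?_⟩
  rw [Nat.card_eq_fintype_card, ← edgeFinset_card, Nat.card_eq_fintype_card, Fintype.card_fin]
  have : (pathGraph 32).edgeFinset.card = 31 := by decide +kernel
  rw [this]

lemma path31_tree : (pathGraph 31).IsTree := by
  rw [isTree_iff_connected_and_card]
  refine ⟨pathGraph_connected 30, ?_⟩
  rw [Nat.card_eq_fintype_card, ← edgeFinset_card, Nat.card_eq_fintype_card, Fintype.card_fin]
  have : (pathGraph 31).edgeFinset.card = 30 := by decide +kernel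
  rw [this]

lemma path32_deg (i : Fin 32) : deg (pathGraph 32) i = if i = 0 ∨ i = 31 then 1 else 2 := by
  rw [deg_eq_degree]
  revert i
  decide +kernel

lemma path31_deg (i : Fin 31) : deg (pathGraph 31) i = if i = 0 ∨ i = 30 then 1 else 2 := by
  rw [deg_eq_degree]
  revert i
  decide +kernel

end Trees

/-! ### The graph -/

/-- The neighbours in the fragment `F`. -/
def nbF : List (List ℕ) :=
  [[9, 14], [8, 13], [6, 12, 15], [6, 9, 10], [10, 14, 15], [7, 10, 11], [2, 3, 7], [5, 6, 8], [1, 7, 14], [0, 3, 13], [3, 4, 5], [5, 12, 13], [2, 11, 15], [1, 9, 11], [0, 4, 8], [2, 4, 12]]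

/-- The neighbours in the graph. -/
def nbG : List (List ℕ) :=
  [[9, 14, 16],
   [8, 13, 17],
   [6, 12, 15],
   [6, 9, 10],
   [10, 14, 15],
   [7, 10, 11],
   [2, 3, 7],
   [5, 6, 8],
   [1, 7, 14],
   [0, 3, 13],
   [3, 4, 5],
   [5, 12, 13],
   [2, 11, 15],
   [1, 9, 11],
   [0, 4, 8],
   [2, 4, 12],
   [0, 25, 30],
   [1, 24, 29],
   [22, 28, 31],
   [22, 25, 26],
   [26, 30, 31],
   [23, 26, 27],
   [18, 19, 23],
   [21, 22, 24],
   [17, 23, 30],
   [16, 19, 29],
   [19, 20, 21],
   [21, 28, 29],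
   [18, 27, 31],
   [17, 25, 27],
   [16, 20, 24],
   [18, 20, 28]]

/-- The counterexample graph. -/
def G : SimpleGraph (Fin 32) where
  Adj x y := (nbG.getD x.val []).contains y.val = true
  symm := ⟨by decide +kernel⟩
  loopless := ⟨by decide +kernel⟩

instance : DecidableRel G.Adj :=
  fun x y => inferInstanceAs (Decidable ((nbG.getD x.val []).contains y.val = true))

/-- A hamiltonian path of the graph. -/
def path0 : List ℕ :=
  [2, 6, 7, 5, 11, 12, 15, 4, 10, 3, 9, 13, 1, 8, 14, 0, 16, 30, 24, 17, 29, 25, 19, 26, 20, 31, 28, 27, 21, 23, 22, 18]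

/-- Hamiltonian paths of the graphs `G - v`. -/
def paths : List (List ℕ) :=
  [[2, 6, 7, 5, 10, 3, 9, 13, 11, 12, 15, 4, 14, 8, 1, 17, 29, 27, 28, 31, 20, 26, 21, 23, 24, 30, 16, 25, 19, 22, 18],
   [2, 6, 3, 9, 13, 11, 12, 15, 4, 10, 5, 7, 8, 14, 0, 16, 30, 24, 17, 29, 25, 19, 26, 20, 31, 28, 27, 21, 23, 22, 18],
   [15, 12, 11, 13, 1, 8, 14, 4, 10, 5, 7, 6, 3, 9, 0, 16, 30, 24, 17, 29, 25, 19, 26, 20, 31, 28, 27, 21, 23, 22, 18],
   [2, 6, 7, 5, 10, 4, 15, 12, 11, 13, 9, 0, 14, 8, 1, 17, 29, 27, 28, 31, 20, 26, 21, 23, 24, 30, 16, 25, 19, 22, 18],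
   [2, 15, 12, 11, 5, 10, 3, 6, 7, 8, 14, 0, 9, 13, 1, 17, 29, 27, 28, 31, 20, 26, 21, 23, 24, 30, 16, 25, 19, 22, 18],
   [2, 6, 7, 8, 14, 0, 9, 3, 10, 4, 15, 12, 11, 13, 1, 17, 29, 27, 28, 31, 20, 26, 21, 23, 24, 30, 16, 25, 19, 22, 18],
   [2, 15, 12, 11, 5, 7, 8, 1, 13, 9, 3, 10, 4, 14, 0, 16, 30, 24, 17, 29, 25, 19, 26, 20, 31, 28, 27, 21, 23, 22, 18],
   [2, 6, 3, 10, 5, 11, 12, 15, 4, 14, 8, 1, 13, 9, 0, 16, 30, 24, 17, 29, 25, 19, 26, 20, 31, 28, 27, 21, 23, 22, 18],
   [2, 6, 7, 5, 10, 3, 9, 0, 14, 4, 15, 12, 11, 13, 1, 17, 29, 27, 28, 31, 20, 26, 21, 23, 24, 30, 16, 25, 19, 22, 18],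
   [2, 6, 3, 10, 5, 7, 8, 1, 13, 11, 12, 15, 4, 14, 0, 16, 30, 24, 17, 29, 25, 19, 26, 20, 31, 28, 27, 21, 23, 22, 18],
   [2, 6, 3, 9, 13, 1, 8, 7, 5, 11, 12, 15, 4, 14, 0, 16, 30, 24, 17, 29, 25, 19, 26, 20, 31, 28, 27, 21, 23, 22, 18],
   [2, 12, 15, 4, 10, 5, 7, 6, 3, 9, 13, 1, 8, 14, 0, 16, 30, 24, 17, 29, 25, 19, 26, 20, 31, 28, 27, 21, 23, 22, 18],
   [2, 15, 4, 10, 3, 6, 7, 5, 11, 13, 9, 0, 14, 8, 1, 17, 29, 27, 28, 31, 20, 26, 21, 23, 24, 30, 16, 25, 19, 22, 18],
   [2, 6, 7, 5, 11, 12, 15, 4, 10, 3, 9, 0, 14, 8, 1, 17, 29, 27, 28, 31, 20, 26, 21, 23, 24, 30, 16, 25, 19, 22, 18],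
   [2, 6, 3, 10, 4, 15, 12, 11, 5, 7, 8, 1, 13, 9, 0, 16, 30, 24, 17, 29, 25, 19, 26, 20, 31, 28, 27, 21, 23, 22, 18],
   [2, 12, 11, 5, 7, 6, 3, 10, 4, 14, 8, 1, 13, 9, 0, 16, 30, 24, 17, 29, 25, 19, 26, 20, 31, 28, 27, 21, 23, 22, 18],
   [18, 22, 23, 21, 26, 19, 25, 29, 27, 28, 31, 20, 30, 24, 17, 1, 13, 11, 12, 15, 4, 10, 5, 7, 8, 14, 0, 9, 3, 6, 2],
   [18, 22, 19, 25, 29, 27, 28, 31, 20, 26, 21, 23, 24, 30, 16, 0, 14, 8, 1, 13, 9, 3, 10, 4, 15, 12, 11, 5, 7, 6, 2],
   [31, 28, 27, 29, 17, 24, 30, 20, 26, 21, 23, 22, 19, 25, 16, 0, 14, 8, 1, 13, 9, 3, 10, 4, 15, 12, 11, 5, 7, 6, 2],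
   [18, 22, 23, 21, 26, 20, 31, 28, 27, 29, 25, 16, 30, 24, 17, 1, 13, 11, 12, 15, 4, 10, 5, 7, 8, 14, 0, 9, 3, 6, 2],
   [18, 31, 28, 27, 21, 26, 19, 22, 23, 24, 30, 16, 25, 29, 17, 1, 13, 11, 12, 15, 4, 10, 5, 7, 8, 14, 0, 9, 3, 6, 2],
   [18, 22, 23, 24, 30, 16, 25, 19, 26, 20, 31, 28, 27, 29, 17, 1, 13, 11, 12, 15, 4, 10, 5, 7, 8, 14, 0, 9, 3, 6, 2],
   [18, 31, 28, 27, 21, 23, 24, 17, 29, 25, 19, 26, 20, 30, 16, 0, 14, 8, 1, 13, 9, 3, 10, 4, 15, 12, 11, 5, 7, 6, 2],
   [18, 22, 19, 26, 21, 27, 28, 31, 20, 30, 24, 17, 29, 25, 16, 0, 14, 8, 1, 13, 9, 3, 10, 4, 15, 12, 11, 5, 7, 6, 2],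
   [18, 22, 23, 21, 26, 19, 25, 16, 30, 20, 31, 28, 27, 29, 17, 1, 13, 11, 12, 15, 4, 10, 5, 7, 8, 14, 0, 9, 3, 6, 2],
   [18, 22, 19, 26, 21, 23, 24, 17, 29, 27, 28, 31, 20, 30, 16, 0, 14, 8, 1, 13, 9, 3, 10, 4, 15, 12, 11, 5, 7, 6, 2],
   [18, 22, 19, 25, 29, 17, 24, 23, 21, 27, 28, 31, 20, 30, 16, 0, 14, 8, 1, 13, 9, 3, 10, 4, 15, 12, 11, 5, 7, 6, 2],
   [18, 28, 31, 20, 26, 21, 23, 22, 19, 25, 29, 17, 24, 30, 16, 0, 14, 8, 1, 13, 9, 3, 10, 4, 15, 12, 11, 5, 7, 6, 2],
   [18, 31, 20, 26, 19, 22, 23, 21, 27, 29, 25, 16, 30, 24, 17, 1, 13, 11, 12, 15, 4, 10, 5, 7, 8, 14, 0, 9, 3, 6, 2],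
   [18, 22, 23, 21, 27, 28, 31, 20, 26, 19, 25, 16, 30, 24, 17, 1, 13, 11, 12, 15, 4, 10, 5, 7, 8, 14, 0, 9, 3, 6, 2],
   [18, 22, 19, 26, 20, 31, 28, 27, 21, 23, 24, 17, 29, 25, 16, 0, 14, 8, 1, 13, 9, 3, 10, 4, 15, 12, 11, 5, 7, 6, 2],
   [18, 28, 27, 21, 23, 22, 19, 26, 20, 30, 24, 17, 29, 25, 16, 0, 14, 8, 1, 13, 9, 3, 10, 4, 15, 12, 11, 5, 7, 6, 2]]

/-- `path0` as a function. -/
def p0 (i : Fin 32) : Fin 32 := Fin.ofNat 32 (path0.getD i.val 0)

/-- `paths` as a function. -/
def pv (v : Fin 32) (i : Fin 31) : Fin 32 := Fin.ofNat 32 ((paths.getD v.val []).getD i.val 0)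

lemma p0_inj : Function.Injective p0 := by
  unfold Function.Injective
  decide +kernel

lemma pv_ne (v : Fin 32) (i : Fin 31) : pv v i ≠ v := by
  revert v i
  decide +kernel

lemma pv_inj (v : Fin 32) : Function.Injective (pv v) := by
  unfold Function.Injective
  revert v
  decide +kernel

lemma p0_adj : ∀ i : Fin 31, G.Adj (p0 i.castSucc) (p0 i.succ) := by decide +kernel

lemma pv_adj : ∀ v : Fin 32, ∀ i : Fin 30, G.Adj (pv v i.castSucc) (pv v i.succ) := by
  decide +kernel

noncomputable def f0 : Fin 32 ≃ Fin 32 := Equiv.ofBijective p0 (Finite.injective_iff_bijective.1 p0_inj)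

noncomputable def fv (v : Fin 32) : Fin 31 ≃ {w : Fin 32 // w ≠ v} :=
  Equiv.ofBijective (fun i => ⟨pv v i, pv_ne v i⟩) (by
    rw [Fintype.bijective_iff_injective_and_card]
    refine ⟨fun i j h => pv_inj v (Subtype.ext_iff.1 h), ?_⟩
    simp [Fintype.card_subtype_compl])

lemma fv_val (v : Fin 32) (i : Fin 31) : (fv v i).1 = pv v i := rfl

lemma f0_apply (i : Fin 32) : f0 i = p0 i := rfl

/-- The spanning path of `G`. -/
noncomputable def S0 : SimpleGraph (Fin 32) := pathTree f0

/-- The spanning path of `G - v`. -/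
noncomputable def Sv (v : Fin 32) : SimpleGraph {w : Fin 32 // w ≠ v} := pathTree (fv v)

lemma S0_le : S0 ≤ G := by
  intro x y h
  have h' : (pathGraph 32).Adj (f0.symm x) (f0.symm y) := h
  rw [pathGraph_adj] at h'
  have key : ∀ i j : Fin 32, i.val + 1 = j.val → G.Adj (p0 i) (p0 j) := by
    intro i j hij
    have := p0_adj ⟨i.val, by omega⟩
    have e1 : (⟨i.val, by omega⟩ : Fin 31).castSucc = i := rfl
    have e2 : (⟨i.val, by omega⟩ : Fin 31).succ = j := by ext; simpa using hij
    rw [e1, e2] at this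
    exact this
  have hx : p0 (f0.symm x) = x := f0.apply_symm_apply x
  have hy : p0 (f0.symm y) = y := f0.apply_symm_apply y
  rcases h' with h' | h'
  · have := key _ _ h'
    rwa [hx, hy] at this
  · have := (key _ _ h').symm
    rwa [hx, hy] at this

lemma Sv_le (v : Fin 32) : Sv v ≤ del G v := by
  intro x y h
  have h' : (pathGraph 31).Adj ((fv v).symm x) ((fv v).symm y) := h
  rw [pathGraph_adj] at h'
  have key : ∀ i j : Fin 31, i.val + 1 = j.val → G.Adj (pv v i) (pv v j) := by
    intro i j hij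
    have := pv_adj v ⟨i.val, by omega⟩
    have e1 : (⟨i.val, by omega⟩ : Fin 30).castSucc = i := rfl
    have e2 : (⟨i.val, by omega⟩ : Fin 30).succ = j := by ext; simpa using hij
    rw [e1, e2] at this
    exact this
  have hx : pv v ((fv v).symm x) = x.1 := by
    rw [← fv_val, Equiv.apply_symm_apply]
  have hy : pv v ((fv v).symm y) = y.1 := by
    rw [← fv_val, Equiv.apply_symm_apply]
  show G.Adj x.1 y.1
  rcases h' with h' | h'
  · have := key _ _ h'
    rwa [hx, hy] at this
  · have := (key _ _ h').symm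
    rwa [hx, hy] at this

lemma S0_tree : S0.IsTree := pathTree_isTree f0 path32_tree

lemma Sv_tree (v : Fin 32) : (Sv v).IsTree := pathTree_isTree (fv v) path31_tree

lemma S0_deg (i : Fin 32) : deg S0 (p0 i) = if i = 0 ∨ i = 31 then 1 else 2 := by
  rw [← f0_apply, S0, pathTree_deg, path32_deg]

lemma Sv_deg (v : Fin 32) (i : Fin 31) :
    deg (Sv v) (fv v i) = if i = 0 ∨ i = 30 then 1 else 2 := by
  rw [Sv, pathTree_deg, path31_deg]

lemma S0_leaves : leaves S0 = 2 := by
  have : {w | deg S0 w = 1} = {p0 0, p0 31} := by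
    ext w
    obtain ⟨i, rfl⟩ := f0.surjective w
    rw [f0_apply]
    show deg S0 (p0 i) = 1 ↔ _
    rw [S0_deg]
    constructor
    · intro h
      by_cases h' : i = 0 ∨ i = 31
      · rcases h' with rfl | rfl <;> simp
      · rw [if_neg h'] at h; omega
    · intro h
      rcases h with h | h
      · rw [p0_inj h]; simp
      · rw [p0_inj h]; simp
  rw [leaves, this]
  exact Set.ncard_pair (fun h => absurd (p0_inj h) (by decide))

lemma Sv_leaves (v : Fin 32) : leaves (Sv v) = 2 := by
  have : {w | deg (Sv v) w = 1} = {fv v 0, fv v 30} := by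
    ext w
    obtain ⟨i, rfl⟩ := (fv v).surjective w
    show deg (Sv v) (fv v i) = 1 ↔ _
    rw [Sv_deg]
    constructor
    · intro h
      by_cases h' : i = 0 ∨ i = 30
      · rcases h' with rfl | rfl <;> simp
      · rw [if_neg h'] at h; omega
    · intro h
      rcases h with h | h
      · rw [(fv v).injective h]; simp
      · rw [(fv v).injective h]; simp
  rw [leaves, this]
  exact Set.ncard_pair (fun h => absurd ((fv v).injective h) (by decide))

/-! ### The graphs are not hamiltonian -/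

/-- Depth-first search for a hamiltonian path of the fragment which ends in `t`. -/
def dfs (t : ℕ) : ℕ → ℕ → ℕ → Bool
  | 0, cur, _ => cur == t
  | k + 1, cur, mask =>
    (nbF.getD cur []).any fun w => !(mask.testBit w) && dfs t k w (mask ||| (1 <<< w))

/-- The set of the first values of `c`, as a bit mask. -/
def msk (c : ℕ → ℕ) : ℕ → ℕ
  | 0 => 1 <<< c 0
  | k + 1 => msk c k ||| (1 <<< c (k + 1))

lemma testBit_one_shift (a w : ℕ) : (1 <<< a).testBit w = decide (a = w) := by
  rw [Nat.one_shiftLeft, Nat.testBit_two_pow]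

lemma msk_testBit (c : ℕ → ℕ) (k w : ℕ) : (msk c k).testBit w = true ↔ ∃ i ≤ k, c i = w := by
  induction k with
  | zero =>
    rw [msk, testBit_one_shift]
    simp
  | succ k ih =>
    rw [msk, Nat.testBit_or, Bool.or_eq_true, ih, testBit_one_shift, decide_eq_true_iff]
    constructor
    · rintro (⟨i, hi, h⟩ | h)
      · exact ⟨i, by omega, h⟩
      · exact ⟨k + 1, le_rfl, h⟩
    · rintro ⟨i, hi, h⟩
      rcases Nat.lt_or_ge i (k + 1) with h' | h'
      · exact Or.inl ⟨i, by omega, h⟩
      · have : i = k + 1 := by omega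
        subst this
        exact Or.inr h

lemma dfs_sound (c : ℕ → ℕ) (n t : ℕ) (hinj : ∀ i ≤ n, ∀ j ≤ n, c i = c j → i = j)
    (hadj : ∀ i < n, c (i + 1) ∈ nbF.getD (c i) []) (ht : c n = t) :
    ∀ m k, k + m = n → dfs t m (c k) (msk c k) = true := by
  intro m
  induction m with
  | zero =>
    intro k hk
    have : k = n := by omega
    subst this
    simp [dfs, ht]
  | succ m ih =>
    intro k hk
    rw [dfs, List.any_eq_true]
    refine ⟨c (k + 1), hadj k (by omega), ?_⟩
    have h1 : (msk c k).testBit (c (k + 1)) = false := by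
      by_contra h
      rw [Bool.not_eq_false, msk_testBit] at h
      obtain ⟨i, hi, h⟩ := h
      have := hinj i (by omega) (k + 1) (by omega) h
      omega
    rw [h1]
    have := ih (k + 1) (by omega)
    rw [msk] at this
    simpa using this

/-- The fragment has no hamiltonian path between `0` and `1`. -/
lemma no_path (c : ℕ → ℕ) (hinj : ∀ i ≤ 15, ∀ j ≤ 15, c i = c j → i = j)
    (hadj : ∀ i < 15, c (i + 1) ∈ nbF.getD (c i) [])
    (hends : (c 0 = 0 ∧ c 15 = 1) ∨ (c 0 = 1 ∧ c 15 = 0)) : False := by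
  have h1 : dfs 1 15 0 (1 <<< 0) = false := by decide +kernel
  have h0 : dfs 0 15 1 (1 <<< 1) = false := by decide +kernel
  rcases hends with ⟨h, h'⟩ | ⟨h, h'⟩
  · have := dfs_sound c 15 1 hinj hadj h' 15 0 rfl
    rw [msk, h, h1] at this
    exact Bool.false_ne_true this
  · have := dfs_sound c 15 0 hinj hadj h' 15 0 rfl
    rw [msk, h, h0] at this
    exact Bool.false_ne_true this

/-- The two sides. -/
def side (x : Fin 32) : Bool := decide (x.val < 16)

lemma adj_same : ∀ x y : Fin 32, G.Adj x y → side x = side y →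
    y.val % 16 ∈ nbF.getD (x.val % 16) [] := by
  decide +kernel

lemma adj_cross : ∀ x y : Fin 32, G.Adj x y → side x ≠ side y →
    x.val % 16 = y.val % 16 ∧ (x.val % 16 = 0 ∨ x.val % 16 = 1) := by
  decide +kernel

/-- A closed injective sequence cannot contain one side completely and meet the other side. -/
lemma no_cycle (s : Bool) (m : ℕ) (hm : 3 ≤ m) (c : ℕ → Fin 32)
    (hper : ∀ i, c (i + m) = c i) (hinj : ∀ i < m, ∀ j < m, c i = c j → i = j)
    (hadj : ∀ i, G.Adj (c i) (c (i + 1)))
    (hall : ∀ x, side x = s → ∃ i, c i = x) (hout : ∃ i, side (c i) ≠ s) : False := by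
  have hmod : ∀ i, c i = c (i % m) := by
    intro i
    have : ∀ q r, c (r + q * m) = c r := by
      intro q
      induction q with
      | zero => intro r; simp
      | succ q ih =>
        intro r
        have : r + (q + 1) * m = (r + q * m) + m := by ring
        rw [this, hper, ih]
    have h2 := this (i / m) (i % m)
    rw [mul_comm, Nat.mod_add_div] at h2
    exact h2
  -- find an index where the sequence enters the side `s`
  obtain ⟨i0, hi0, hi1⟩ : ∃ i0, side (c i0) ≠ s ∧ side (c (i0 + 1)) = s := by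
    by_contra hcon
    push Not at hcon
    obtain ⟨i, hi⟩ := hout
    have hstay : ∀ k, side (c (i + k)) ≠ s := by
      intro k
      induction k with
      | zero => exact hi
      | succ k ih => exact hcon _ ih
    obtain ⟨j, hj⟩ : ∃ j, side (c j) = s := by
      obtain ⟨x, hx⟩ : ∃ x : Fin 32, side x = s := by
        cases s
        · exact ⟨16, by decide⟩
        · exact ⟨0, by decide⟩
      obtain ⟨j, hj⟩ := hall x hx
      exact ⟨j, hj ▸ hx⟩
    have h3 : c (i + (j + (i * m - i))) = c j := by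
      have h4 : i + (j + (i * m - i)) = j + i * m := by
        have : i ≤ i * m := Nat.le_mul_of_pos_right i (by omega)
        omega
      rw [h4, hmod (j + i * m), Nat.add_mul_mod_self_right, ← hmod]
    have := hstay (j + (i * m - i))
    rw [h3] at this
    exact this hj
  -- shift the sequence
  set d : ℕ → Fin 32 := fun i => c (i0 + 1 + i) with hd
  have hdadj : ∀ i, G.Adj (d i) (d (i + 1)) := fun i => hadj _
  have hdper : ∀ i, d (i + m) = d i := by
    intro i
    show c (i0 + 1 + (i + m)) = c (i0 + 1 + i)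
    rw [← hper (i0 + 1 + i), show i0 + 1 + (i + m) = i0 + 1 + i + m by ring]
  have hdinj : ∀ i < m, ∀ j < m, d i = d j → i = j := by
    intro i hi j hj hij
    have h1 : c (i0 + 1 + i) = c (i0 + 1 + j) := hij
    rw [hmod (i0 + 1 + i), hmod (i0 + 1 + j)] at h1
    have h2 := hinj _ (Nat.mod_lt _ (by omega)) _ (Nat.mod_lt _ (by omega)) h1
    have h3 : i ≡ j [MOD m] := Nat.ModEq.add_left_cancel' (i0 + 1) h2
    exact Nat.ModEq.eq_of_lt_of_lt h3 hi hj
  have hd0 : side (d 0) = s := hi1
  have hdm : side (d (m - 1)) ≠ s := by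
    have : d (m - 1) = c i0 := by
      show c (i0 + 1 + (m - 1)) = c i0
      rw [← hper i0]
      congr 1
      omega
    rw [this]
    exact hi0
  have hdall : ∀ x, side x = s → ∃ i < m, d i = x := by
    intro x hx
    obtain ⟨i, rfl⟩ := hall x hx
    have hdmod : ∀ i, d i = d (i % m) := by
      intro i
      have : ∀ q r, d (r + q * m) = d r := by
        intro q
        induction q with
        | zero => intro r; simp
        | succ q ih =>
          intro r
          have : r + (q + 1) * m = (r + q * m) + m := by ring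
          rw [this, hdper, ih]
      have h2 := this (i / m) (i % m)
      rw [mul_comm, Nat.mod_add_div] at h2
      exact h2
    have h5 : d (i + (m - 1) * (i0 + 1)) = c i := by
      show c (i0 + 1 + (i + (m - 1) * (i0 + 1))) = c i
      have : i0 + 1 + (i + (m - 1) * (i0 + 1)) = i + m * (i0 + 1) := by
        obtain ⟨m', rfl⟩ : ∃ m', m = m' + 1 := ⟨m - 1, by omega⟩
        simp only [Nat.add_sub_cancel]
        ring
      rw [this, hmod, Nat.add_mul_mod_self_left, ← hmod]
    exact ⟨_, Nat.mod_lt _ (by omega), by rw [← hdmod, h5]⟩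
  -- first index outside the side
  obtain ⟨j, hj, hjmin⟩ : ∃ j, side (d j) ≠ s ∧ ∀ k < j, side (d k) = s := by
    classical
    have hex : ∃ j, side (d j) ≠ s := ⟨m - 1, hdm⟩
    refine ⟨Nat.find hex, Nat.find_spec hex, fun k hk => ?_⟩
    have := Nat.find_min hex hk
    simpa using this
  have hj0 : 1 ≤ j := by
    rcases Nat.eq_zero_or_pos j with h | h
    · subst h; exact absurd hd0 hj
    · exact h
  have hjm : j ≤ m - 1 := by
    by_contra h
    exact hdm (hjmin _ (by omega))
  -- after `j` the sequence does not come back before `m`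
  have hback : ∀ k, j ≤ k → k < m → side (d k) ≠ s := by
    intro k hk hkm
    induction k, hk using Nat.le_induction with
    | base => exact hj
    | succ k hk ih =>
      intro hcon
      have hk' := ih (by omega)
      -- three crossing edges
      have c1 := adj_cross (d (m - 1)) (d m) (by
        have := hdadj (m - 1)
        rwa [Nat.sub_add_cancel (by omega)] at this) (by
          have h6 : d m = d 0 := by simpa using hdper 0
          rw [h6, hd0]; exact hdm)
      have c2 := adj_cross (d (j - 1)) (d j) (by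
        have := hdadj (j - 1)
        rwa [Nat.sub_add_cancel (by omega)] at this) (by
          rw [hjmin (j - 1) (by omega)]; exact fun h => hj h.symm)
      have c3 := adj_cross (d k) (d (k + 1)) (hdadj k) (by
        rw [hcon]; exact hk')
      have h6 : d m = d 0 := by simpa using hdper 0
      rw [h6] at c1
      -- equality of vertices from residues on the same side
      have same : ∀ x y : Fin 32, side x = side y → x.val % 16 = y.val % 16 → x = y := by
        decide +kernel
      have e1 : (d (k + 1)).val % 16 ≠ (d 0).val % 16 := by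
        intro h
        have := hdinj _ (by omega) _ (by omega) (same _ _ (by rw [hcon, hd0]) h)
        omega
      have e2 : (d (k + 1)).val % 16 ≠ (d (j - 1)).val % 16 := by
        intro h
        have := hdinj _ (by omega) _ (by omega)
          (same _ _ (by rw [hcon, hjmin (j - 1) (by omega)]) h)
        omega
      have e3 : (d 0).val % 16 = (d (j - 1)).val % 16 := by
        have := c1.1; have := c1.2; have := c2.1; have := c2.2; have := c3.1; have := c3.2
        omega
      have hj1 : 0 = j - 1 := hdinj _ (by omega) _ (by omega)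
        (same _ _ (by rw [hd0, hjmin (j - 1) (by omega)]) e3)
      have hb : ∀ a b : Bool, a ≠ s → b ≠ s → a = b := by
        cases s <;> decide
      have e4 : d (m - 1) = d j := by
        apply same _ _ (hb _ _ hdm hj)
        have := c1.1; have := c2.1
        omega
      have := hdinj _ (by omega) _ (by omega) e4
      omega
  -- so the first `j` vertices are exactly the side
  have hcard : j = 16 := by
    have h1 : (Finset.univ.filter fun x : Fin 32 => side x = s).card = 16 := by
      cases s <;> decide +kernel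
    have h2 : (Finset.univ.filter fun x : Fin 32 => side x = s) = (Finset.range j).image d := by
      ext x
      simp only [Finset.mem_filter, Finset.mem_univ, true_and, Finset.mem_image, Finset.mem_range]
      constructor
      · intro hx
        obtain ⟨i, hi, rfl⟩ := hdall x hx
        refine ⟨i, ?_, rfl⟩
        by_contra h
        exact hback i (by omega) hi hx
      · rintro ⟨i, hi, rfl⟩
        exact hjmin i hi
    rw [h2, Finset.card_image_of_injOn, Finset.card_range] at h1
    · exact h1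
    · intro a ha b hb hab
      simp only [Finset.coe_range, Set.mem_Iio] at ha hb
      exact hdinj a (by omega) b (by omega) hab
  have same : ∀ x y : Fin 32, side x = side y → x.val % 16 = y.val % 16 → x = y := by
    decide +kernel
  have c1 := adj_cross (d (m - 1)) (d m) (by
    have := hdadj (m - 1)
    rwa [Nat.sub_add_cancel (by omega)] at this) (by
      have h6 : d m = d 0 := by simpa using hdper 0
      rw [h6, hd0]; exact hdm)
  have h6 : d m = d 0 := by simpa using hdper 0
  rw [h6] at c1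
  have c2 := adj_cross (d 15) (d 16) (hdadj 15) (by
    rw [hjmin 15 (by omega)]
    rw [hcard] at hj
    exact fun h => hj h.symm)
  have hne : (d 0).val % 16 ≠ (d 15).val % 16 := by
    intro h
    have := hdinj 0 (by omega) 15 (by omega)
      (same _ _ (by rw [hd0, hjmin 15 (by omega)]) h)
    omega
  apply no_path (fun i => (d i).val % 16)
  · intro i hi k hk h
    exact hdinj i (by omega) k (by omega)
      (same _ _ (by rw [hjmin i (by omega), hjmin k (by omega)]) h)
  · intro i hi
    exact adj_same _ _ (hdadj i) (by rw [hjmin i (by omega), hjmin (i + 1) (by omega)])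
  · show ((d 0).val % 16 = 0 ∧ (d 15).val % 16 = 1) ∨ ((d 0).val % 16 = 1 ∧ (d 15).val % 16 = 0)
    have := c1.1; have := c1.2; have := c2.1; have := c2.2
    omega

/-- From a hamiltonian cycle to a periodic sequence. -/
lemma no_ham {W : Type} [DecidableEq W] (H : SimpleGraph W) (φ : W → Fin 32)
    (hφ : Function.Injective φ) (hadj : ∀ x y, H.Adj x y → G.Adj (φ x) (φ y)) (s : Bool)
    (hall : ∀ x, side x = s → ∃ w, φ w = x) (hout : ∃ w, side (φ w) ≠ s) :
    ¬ Hamiltonian H := by
  rintro ⟨S, a, p, hp, -⟩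
  have hlen : 3 ≤ p.length := hp.isCycle.three_le_length
  have hget : ∀ w, ∃ i < p.length, p.getVert i = w := by
    intro w
    obtain ⟨i, hi, hi'⟩ := Walk.mem_support_iff_exists_getVert.1 (hp.mem_support w)
    rcases Nat.lt_or_ge i p.length with h | h
    · exact ⟨i, h, hi⟩
    · refine ⟨0, by omega, ?_⟩
      have : i = p.length := by omega
      rw [this, Walk.getVert_length] at hi
      rw [Walk.getVert_zero, hi]
  apply no_cycle s p.length hlen (fun i => φ (p.getVert (i % p.length)))
  · intro i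
    simp
  · intro i hi j hj h
    have h1 := hφ h
    rw [Nat.mod_eq_of_lt hi, Nat.mod_eq_of_lt hj] at h1
    exact hp.isCycle.getVert_injOn' (by rw [Set.mem_ofPred_eq]; omega)
      (by rw [Set.mem_ofPred_eq]; omega) h1
  · intro i
    apply hadj
    have hlt : i % p.length < p.length := Nat.mod_lt _ (by omega)
    have h1 := p.adj_getVert_succ hlt
    rcases Nat.lt_or_ge (i % p.length + 1) p.length with h | h
    · have : (i + 1) % p.length = i % p.length + 1 := by
        rw [Nat.add_mod, Nat.mod_eq_of_lt (show 1 < p.length by omega), Nat.mod_eq_of_lt h]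
      rw [this]
      exact h1
    · have h2 : i % p.length + 1 = p.length := by omega
      have : (i + 1) % p.length = 0 := by
        rw [Nat.add_mod, Nat.mod_eq_of_lt (show 1 < p.length by omega), h2, Nat.mod_self]
      rw [this, Walk.getVert_zero]
      rw [h2, Walk.getVert_length] at h1
      exact h1
  · intro x hx
    obtain ⟨w, rfl⟩ := hall x hx
    obtain ⟨i, hi, rfl⟩ := hget w
    exact ⟨i, by rw [Nat.mod_eq_of_lt hi]⟩
  · obtain ⟨w, hw⟩ := hout
    obtain ⟨i, hi, rfl⟩ := hget w
    exact ⟨i, by rwa [Nat.mod_eq_of_lt hi]⟩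

lemma G_not_ham : ¬ Hamiltonian G :=
  no_ham G id Function.injective_id (fun _ _ h => h) true (fun x _ => ⟨x, rfl⟩)
    ⟨16, by decide⟩

lemma del_not_ham (v : Fin 32) : ¬ Hamiltonian (del G v) := by
  apply no_ham (del G v) Subtype.val Subtype.val_injective (fun _ _ h => h) (!side v)
  · intro x hx
    refine ⟨⟨x, ?_⟩, rfl⟩
    rintro rfl
    revert hx
    cases side x <;> decide
  · have : ∀ v : Fin 32, ∃ w : Fin 32, w ≠ v ∧ side w ≠ !side v := by decide +kernel
    obtain ⟨w, hw, hw'⟩ := this v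
    exact ⟨⟨w, hw⟩, hw'⟩

/-! ### The fault cost -/

lemma ml_eq_two {V : Type} [DecidableEq V] [Finite V] [Nontrivial V] {G T : SimpleGraph V}
    (hG : ¬ Hamiltonian G) (hT : IsSpanningTree G T) (h2 : leaves T = 2) : ml G = 2 := by
  have hne : {k | ∃ T, IsSpanningTree G T ∧ leaves T = k}.Nonempty := ⟨2, T, hT, h2⟩
  rw [ml, if_neg hG]
  apply le_antisymm
  · exact Nat.sInf_le ⟨T, hT, h2⟩
  · obtain ⟨T', hT', hk⟩ := Nat.sInf_mem hne
    rw [← hk]
    exact two_le_leaves hT'.2

instance (v : Fin 32) : Nontrivial {w : Fin 32 // w ≠ v} := by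
  rw [← Fintype.one_lt_card_iff_nontrivial]
  simp [Fintype.card_subtype_compl]

lemma S0_ml : IsMLSubgraph G S0 := by
  right
  refine ⟨G_not_ham, ⟨S0_le, S0_tree⟩, ?_⟩
  rw [ml_eq_two G_not_ham ⟨S0_le, S0_tree⟩ S0_leaves, S0_leaves]

lemma Sv_ml (v : Fin 32) : IsMLSubgraph (del G v) (Sv v) := by
  right
  refine ⟨del_not_ham v, ⟨Sv_le v, Sv_tree v⟩, ?_⟩
  rw [ml_eq_two (del_not_ham v) ⟨Sv_le v, Sv_tree v⟩ (Sv_leaves v), Sv_leaves]

/-- The positions of the vertices on the paths. -/
def pos0 (w : Fin 32) : Fin 32 := Fin.ofNat 32 (path0.idxOf w.val)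

lemma pos0_spec : ∀ w, p0 (pos0 w) = w := by decide +kernel

lemma compare : ∀ v : Fin 32, ∃ x : Fin 32, ∀ i : Fin 31, pv v i ≠ x →
    ((pos0 (pv v i) = 0 ∨ pos0 (pv v i) = 31) ↔ (i = 0 ∨ i = 30)) := by
  decide +kernel

lemma transition_le (v : Fin 32) : transitionCost v S0 (Sv v) ≤ 1 := by
  obtain ⟨x, hx⟩ := compare v
  unfold transitionCost
  rw [Set.ncard_le_one (Set.toFinite _)]
  have key : ∀ w : {w : Fin 32 // w ≠ v}, deg S0 w.1 ≠ deg (Sv v) w → w.1 = x := by
    intro w hw
    obtain ⟨i, rfl⟩ := (fv v).surjective w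
    by_contra hne
    apply hw
    rw [Sv_deg, fv_val]
    rw [fv_val] at hne
    have h1 := hx i hne
    have h2 := S0_deg (pos0 (pv v i))
    rw [pos0_spec] at h2
    rw [h2]
    by_cases h : i = 0 ∨ i = 30
    · rw [if_pos h, if_pos (h1.2 h)]
    · rw [if_neg h, if_neg (fun h' => h (h1.1 h'))]
  intro a ha b hb
  exact Subtype.ext ((key a ha).trans (key b hb).symm)

lemma costAt_le (v : Fin 32) : costAt G S0 v ≤ 1 :=
  (Nat.sInf_le ⟨Sv v, Sv_ml v, rfl⟩ : costAt G S0 v ≤ _).trans (transition_le v)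

lemma one_le_cost (S : SimpleGraph (Fin 32)) (hS : IsMLSubgraph G S) : 1 ≤ costOf G S := by
  obtain ⟨hSt, hSl⟩ : IsSpanningTree G S ∧ leaves S = ml G := by
    rcases hS with h | h
    · exact absurd h.1 G_not_ham
    · exact h.2
  -- a leaf of `S`
  obtain ⟨v, hv⟩ : ∃ v, deg S v = 1 := by
    have h2 := two_le_leaves hSt.2
    have : {w | deg S w = 1}.Nonempty := by
      rw [Set.nonempty_iff_ne_empty]
      intro h
      rw [leaves, h, Set.ncard_empty] at h2
      omega
    exact this
  refine le_trans ?_ (Finset.le_sup (f := costAt G S) (Finset.mem_univ v))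
  have hne : {t | ∃ Sv, IsMLSubgraph (del G v) Sv ∧ transitionCost v S Sv = t}.Nonempty :=
    ⟨_, Sv v, Sv_ml v, rfl⟩
  obtain ⟨T, hT, hTc⟩ := Nat.sInf_mem hne
  show 1 ≤ sInf _
  rw [← hTc]
  by_contra hlt
  have h0 : transitionCost v S T = 0 := by omega
  unfold transitionCost at h0
  rw [Set.ncard_eq_zero (Set.toFinite _)] at h0
  have heq : ∀ w : {w : Fin 32 // w ≠ v}, deg S w.1 = deg T w := by
    intro w
    by_contra h
    have : w ∈ {w : {w : Fin 32 // w ≠ v} | deg S w.1 ≠ deg T w} := h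
    rw [h0] at this
    exact this
  have hTt : T.IsTree := by
    rcases hT with h | h
    · exact absurd h.1 (del_not_ham v)
    · exact h.2.1.2
  have s1 := sum_deg_tree hSt.2
  have s2 := sum_deg_tree hTt
  have s3 : ∑ w, deg S w = deg S v + ∑ w : {w : Fin 32 // w ≠ v}, deg S w.1 := by
    rw [Fintype.sum_eq_add_sum_subtype_ne _ v]
  have s4 : ∑ w : {w : Fin 32 // w ≠ v}, deg S w.1 = ∑ w, deg T w :=
    Finset.sum_congr rfl fun w _ => heq w
  have c1 : Fintype.card {w : Fin 32 // w ≠ v} = 31 := by simp [Fintype.card_subtype_compl]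
  rw [c1] at s2
  rw [Fintype.card_fin] at s1
  omega

/-- There is a 2-connected cubic graph, on 32 vertices, whose fault cost is 1. -/
theorem result : ∃ G : SimpleGraph (Fin 32), (∀ v, deg G v = 3) ∧ IsTwoConnected G ∧
    faultCost G = 1 := by
  refine ⟨G, ?_, ⟨by simp, S0_tree.connected.mono S0_le, fun v => (Sv_tree v).connected.mono
    (Sv_le v)⟩, ?_⟩
  · intro v
    rw [deg_eq_degree]
    revert v
    decide +kernel
  · have hne : {t | ∃ S, IsMLSubgraph G S ∧ costOf G S = t}.Nonempty := ⟨_, S0, S0_ml, rfl⟩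
    apply le_antisymm
    · refine (Nat.sInf_le ⟨S0, S0_ml, rfl⟩ : faultCost G ≤ _).trans ?_
      exact Finset.sup_le fun v _ => costAt_le v
    · obtain ⟨S, hS, hSc⟩ := Nat.sInf_mem hne
      show 1 ≤ sInf _
      rw [← hSc]
      exact one_le_cost S hS

end Pool.Agent.Results.MP_54aac5_co.CubicFaultCost
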